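import Mathlib
import Pool.Agent.MP_fed7c7_lc.S6.Spec

set_option autoImplicit false

/-!
Nice series are closed under polynomial weights; the central binomial series is nice.
-/

namespace Pool.Agent.MP_fed7c7_lc.H29

open PowerSeries Pool.Agent.MP_fed7c7_lc.H93

theorem tr {α : Type} {P : α → Prop} {a b : α} (h : P a) (e : a = b) : P b := e ▸ h

theorem alg_ss : IsAlgebraic RS ss :=
  isAlgebraic_algebraMap (R := RS) (A := ℤ⟦X⟧) ⟨ss, Algebra.self_mem_adjoin_singleton ℤ ss⟩

theorem alg_e2 {g : ℤ⟦X⟧} (h : IsAlgebraic RS g) (P : Polynomial (Polynomial ℤ)) :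
    IsAlgebraic RS (e2 P ss g) :=
  e2_ind (fun f (_ : ℤ) => IsAlgebraic RS f) (fun _ _ _ _ a b => a.add b)
    (fun _ _ _ _ a b => a.mul b) (fun c => isAlgebraic_intCast c) (s' := 0) (x' := 0) alg_ss h P

theorem alg_dss : IsAlgebraic RS (d⁄dX ℤ ss) := by
  have e := congrArg (d⁄dX ℤ) ss_mul
  rw [Derivation.leibniz, map_add, derivative_pow, derivative_X, derivative_one] at e
  have h1 : IsAlgebraic RS (1 + X ^ 2 : ℤ⟦X⟧) := isAlgebraic_one.add (Nice.var.2.pow 2)
  refine IsAlgebraic.of_mul (mem_nonZeroDivisors_of_ne_zero fun z => ?_) h1 ?_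
  · have := congrArg (coeff 0) z
    simp at this
  · have e2 : (1 + X ^ 2) * d⁄dX ℤ ss = 1 - ss * (X + X) := by
      simp only [smul_eq_mul] at e
      push_cast at e
      linear_combination e
    rw [e2]
    exact isAlgebraic_one.sub (alg_ss.mul (Nice.var.2.add Nice.var.2))

theorem alg_dpoly (c : Polynomial ℤ) :
    IsAlgebraic RS (c.eval₂ (Int.castRingHom ℤ⟦X⟧) ss) ∧
      IsAlgebraic RS (d⁄dX ℤ (c.eval₂ (Int.castRingHom ℤ⟦X⟧) ss)) := by
  induction c using Polynomial.induction_on with
  | C a =>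
    rw [Polynomial.eval₂_C, eq_intCast, Derivation.map_intCast]
    exact ⟨isAlgebraic_intCast a, isAlgebraic_zero⟩
  | add p q hp hq =>
    rw [Polynomial.eval₂_add, map_add]
    exact ⟨hp.1.add hq.1, hp.2.add hq.2⟩
  | monomial n a ih =>
    rw [pow_succ, ← mul_assoc, Polynomial.eval₂_mul, Polynomial.eval₂_X, Derivation.leibniz]
    simp only [smul_eq_mul]
    exact ⟨ih.1.mul alg_ss, (ih.1.mul alg_dss).add (alg_ss.mul ih.2)⟩

theorem alg_deriv {g : ℤ⟦X⟧} (h : IsAlgebraic RS g) : IsAlgebraic RS (d⁄dX ℤ g) := by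
  have key : ∀ P : Polynomial (Polynomial ℤ), IsAlgebraic RS
      (d⁄dX ℤ (e2 P ss g) - e2 (Polynomial.derivative P) ss g * d⁄dX ℤ g) := fun P => by
    induction P using Polynomial.induction_on with
    | C a =>
      simp only [e2, Polynomial.derivative_C, Polynomial.eval₂_C, Polynomial.eval₂_zero, zero_mul,
        sub_zero, Polynomial.coe_eval₂RingHom]
      exact (alg_dpoly a).2
    | add p q hp hq =>
      have := hp.add hq
      simp only [e2, map_add, Polynomial.eval₂_add] at this ⊢
      exact tr this (by ring)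
    | monomial n a ih =>
      have h1 := alg_e2 h (Polynomial.C a * Polynomial.X ^ n)
      rw [pow_succ, ← mul_assoc]
      generalize Polynomial.C a * Polynomial.X ^ n = Q at *
      have := h.mul ih
      simp only [e2, Polynomial.derivative_mul, Polynomial.derivative_X, mul_one,
        Polynomial.eval₂_add, Polynomial.eval₂_mul, Polynomial.eval₂_X, Derivation.leibniz,
        smul_eq_mul] at this ⊢
      exact tr this (by ring)
  obtain ⟨P, P0, P1⟩ := sep h
  have := (key P).neg
  rw [P0, map_zero, zero_sub, neg_neg] at this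
  exact IsAlgebraic.of_mul (mem_nonZeroDivisors_of_ne_zero P1) (alg_e2 h _) this

theorem theta_eq (f : ℤ⟦X⟧) : (mk fun m => (m : ℤ) * coeff m f) = X * d⁄dX ℤ f := by
  ext m
  rcases m with _ | m
  · simp
  · rw [coeff_mk, coeff_succ_X_mul, coeff_derivative, mul_comm]
    push_cast
    rfl

/-- The operator `X d/dX`. -/
theorem nice_theta {f : ℤ⟦X⟧} (hf : Nice f) : Nice (mk fun m => (m : ℤ) * coeff m f) := by
  refine ⟨?_, theta_eq f ▸ Nice.var.2.mul (alg_deriv hf.2)⟩
  obtain ⟨g, g1, hg⟩ := hf.1
  refine ⟨2 * g, by linarith, fun m => ?_⟩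
  rw [coeff_mk, Int.cast_mul, abs_mul, mul_pow, Int.cast_natCast, Nat.abs_cast]
  refine mul_le_mul ?_ (hg m) (abs_nonneg _) (by positivity)
  exact_mod_cast ((Nat.le_succ m).trans (Nat.lt_two_pow_self (n := m + 1)).le)

theorem nice_int (c : ℤ) : Nice (C c) :=
  ⟨EB.const c, by rw [eq_intCast]; exact isAlgebraic_intCast c⟩

/-- Polynomial weights. -/
theorem nice_wt {f : ℤ⟦X⟧} (hf : Nice f) (p : Polynomial ℤ) :
    Nice (mk fun m => p.eval (m : ℤ) * coeff m f) := by
  induction p using Polynomial.induction_on with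
  | C a =>
    refine tr ((nice_int a).mul hf) ?_
    ext m
    rw [coeff_C_mul, coeff_mk, Polynomial.eval_C]
  | add p q hp hq =>
    refine tr (hp.add hq) ?_
    ext m
    simp [add_mul]
  | monomial n a ih =>
    refine tr (nice_theta ih) ?_
    ext m
    simp only [coeff_mk, Polynomial.eval_mul, Polynomial.eval_pow, Polynomial.eval_X]
    ring

/-- The series with coefficients `C(m, m / 2)` at `X ^ (m + 1)`, `m` even. -/
theorem nice_binom : Nice (mk fun i =>
    if i % 2 = 1 then (((i - 1).choose ((i - 1) / 2) : ℕ) : ℤ) else 0) := by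
  set c : ℤ⟦X⟧ := expand 2 two_ne_zero (map (Nat.castRingHom ℤ) catalanSeries) with hc
  have e1 : c ^ 2 * X ^ 2 + 1 = c := by
    have := congrArg (fun f => expand 2 two_ne_zero (map (Nat.castRingHom ℤ) f))
      catalanSeries_sq_mul_X_add_one
    simpa only [map_add, map_mul, map_pow, map_one, map_X, expand_X] using this
  have h1 : Nice (X * c) := Nice.fix (h := X) (D := X) (n := 0) dvd_rfl (dvd_mul_right _ _)
    (by linear_combination -X * e1) Nice.var Nice.var
  have h2 := (nice_theta h1).add h1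
  refine ⟨⟨2, one_le_two, fun i => ?_⟩, IsAlgebraic.of_mul (y := C 2)
    (mem_nonZeroDivisors_of_ne_zero fun z => ?_) (nice_int 2).2 (tr h2.2 ?_)⟩
  · rw [coeff_mk]
    split_ifs
    · rw [Int.cast_natCast, Nat.abs_cast]
      exact_mod_cast (Nat.choose_le_two_pow _ _).trans (Nat.pow_le_pow_right two_pos (by omega))
    · simp
  · have := congrArg (coeff 0) z
    rw [coeff_zero_C, map_zero] at this
    omega
  · ext i
    rw [map_add, coeff_mk, coeff_C_mul, coeff_mk]
    rcases i with _ | i
    · simp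
    · rw [coeff_succ_X_mul, hc]
      rcases Nat.even_or_odd' i with ⟨n, rfl | rfl⟩
      · rw [if_pos (by omega), coeff_expand_mul, coeff_map, catalanSeries_coeff,
          Nat.add_sub_cancel, Nat.mul_div_cancel_left _ two_pos, ← Nat.centralBinom_eq_two_mul_choose,
          ← succ_mul_catalan_eq_centralBinom]
        simp only [eq_natCast]
        push_cast
        ring
      · rw [if_neg (by omega), coeff_expand_of_not_dvd _ _ _ (by omega)]
        simp

theorem sND : S6.SND := fun _ h => nice_theta h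

theorem sNB : S6.SNB := ⟨_, nice_binom, fun n => by
  rw [coeff_mk, if_pos (by omega), Nat.add_sub_cancel, Nat.mul_div_cancel_left _ two_pos,
    Nat.centralBinom_eq_two_mul_choose]⟩

end Pool.Agent.MP_fed7c7_lc.H29
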